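import Pool.Agent.H41.Lib.H326R2.Pi.Stmts
/-! Integration over a 2-adic disc without poles. -/

open Polynomial

namespace Pool.Agent.H409R2.Pi

open Pool.Agent.H326R2.Pi

theorem pg_pow (c : ℕ) : pg ^ (2 * c) = (2 ^ c : GaussianInt) * (⟨0, 1⟩ : GaussianInt) ^ c := by
  have h : pg ^ 2 = (2 : GaussianInt) * ⟨0, 1⟩ := by
    rw [pow_two]; unfold pg; ext <;> simp
  rw [pow_mul, h, mul_pow]

theorem exists_odd (d : ℕ) : ∃ m : ℕ, Odd m ∧ ∀ k : ℕ, k + 1 < 2 ^ (d + 1) → (k + 1) ∣ m * 2 ^ d := by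
  refine ⟨∏ i ∈ Finset.range (2 ^ (d+1)), (2 * i + 1), ?_, ?_⟩
  · apply Finset.prod_induction _ Odd (fun a b ha hb => ha.mul hb) odd_one
    intro i _; exact ⟨i, rfl⟩
  · intro k hk
    obtain ⟨a, o, ho, he⟩ := Nat.exists_eq_two_pow_mul_odd (n := k + 1) (by omega)
    obtain ⟨i, rfl⟩ := ho
    rw [he, mul_comm]
    apply mul_dvd_mul
    · apply Finset.dvd_prod_of_mem (fun i => 2 * i + 1)
      rw [Finset.mem_range]
      have : 2 * i + 1 ≤ 2 ^ a * (2 * i + 1) := Nat.le_mul_of_pos_left _ (by positivity)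
      omega
    · apply pow_dvd_pow
      by_contra hc
      have h1 : 2 ^ (d+1) ≤ 2 ^ a := Nat.pow_le_pow_right (by norm_num) (by omega)
      have : 2 ^ a ≤ 2 ^ a * (2 * i + 1) := Nat.le_mul_of_pos_right _ (by omega)
      omega

theorem s_disc : S_disc := by
  intro N V U c d u0 u1 hV hdvd h0 h1 hdeg
  rcases Nat.eq_zero_or_pos c with rfl | hc
  · exact ⟨1, odd_one, by simp⟩
  set P : GaussianInt := pg ^ (2 * c) with hP
  have hP2 : P = (2 ^ c : GaussianInt) * (⟨0, 1⟩ : GaussianInt) ^ c := pg_pow c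
  set E : GaussianInt[X] := (-U) ^ (2 * c) with hE
  have hVE : (1 - V) ^ (2 * c) = C P * E := by
    rw [hV, hP, C_pow, hE, ← mul_pow]
    congr 1; ring
  set W : GaussianInt[X] := ∑ j ∈ Finset.range (2 * c), (1 - V) ^ j with hW
  have hVW : V * W = 1 - C P * E := by
    rw [← hVE, hW]
    have := mul_neg_geom_sum (1 - V) (2 * c)
    rw [← this]; ring
  obtain ⟨f, hf⟩ : ∃ f : GaussianInt[X], f = N * W := ⟨_, rfl⟩
  have hfV : f * V = N * (1 - C P * E) := by rw [hf, ← hVW]; ring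
  have hdf : derivative f * V ^ 2 = (derivative N * V - N * derivative V) * (1 - C P * E) - C P * (V * N * derivative E) := by
    have h2 := congrArg derivative hfV
    rw [derivative_mul, derivative_mul, derivative_sub, derivative_one, derivative_C_mul] at h2
    have h3 : derivative f * V ^ 2 = (derivative f * V + f * derivative V) * V - (f * V) * derivative V := by ring
    rw [h3, h2, hfV]; ring
  have hCP : C P = C (2 ^ c : GaussianInt) * C ((⟨0, 1⟩ : GaussianInt) ^ c) := by rw [hP2, C_mul]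
  have hd1 : C (2 ^ c : GaussianInt) ∣ derivative f * V ^ 2 := by
    rw [hdf]
    apply dvd_sub
    · exact hdvd.mul_right _
    · rw [hCP, mul_assoc]; exact dvd_mul_right _ _
  have hd2 : C (2 ^ c : GaussianInt) ∣ derivative f := by
    have e : derivative f = derivative f * V ^ 2 * W ^ 2 + C P * (derivative f * (2 * E - C P * E ^ 2)) := by
      have : derivative f * V ^ 2 * W ^ 2 = derivative f * (V * W) ^ 2 := by ring
      rw [this, hVW]; ring
    rw [e]
    apply dvd_add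
    · exact hd1.mul_right _
    · rw [hCP, mul_assoc]; exact dvd_mul_right _ _
  obtain ⟨g, hg⟩ := hd2
  have hWdeg : W.natDegree ≤ (2 * c) * V.natDegree := by
    apply natDegree_sum_le_of_forall_le
    intro j hj
    rw [Finset.mem_range] at hj
    refine natDegree_pow_le.trans ?_
    apply Nat.mul_le_mul hj.le
    refine (natDegree_sub_le _ _).trans ?_
    simp
  have hfdeg : f.natDegree < 2 ^ (d + 1) := by
    rw [hf]
    exact lt_of_le_of_lt (natDegree_mul_le.trans (Nat.add_le_add_left hWdeg _)) hdeg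
  obtain ⟨m, hm, hmk⟩ := exists_odd d
  refine ⟨m, hm, ?_⟩
  have hcoef : ∀ k : ℕ, k + 1 < 2 ^ (d+1) → (2 ^ c : GaussianInt) ∣ (m : GaussianInt) * 2 ^ d * f.coeff (k+1) := by
    intro k hk
    obtain ⟨t, ht⟩ := hmk k hk
    have h2 := congrArg (fun p => coeff p k) hg
    simp only [coeff_derivative, coeff_C_mul] at h2
    have h3 : (m : GaussianInt) * 2 ^ d = ((k:GaussianInt) + 1) * t := by exact_mod_cast ht
    rw [h3]
    refine ⟨t * g.coeff k, ?_⟩
    calc ((k:GaussianInt) + 1) * t * f.coeff (k+1) = t * (f.coeff (k+1) * (k+1)) := by ring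
      _ = _ := by rw [h2]; ring
  have hff : (2 ^ c : GaussianInt) ∣ (m : GaussianInt) * 2 ^ d * (f.eval 1 - f.eval 0) := by
    obtain ⟨D, hD⟩ : ∃ D, 2 ^ (d+1) = D + 1 := ⟨2 ^ (d+1) - 1, by have : 1 ≤ 2 ^ (d+1) := Nat.one_le_two_pow; omega⟩
    rw [eval_eq_sum_range' hfdeg, hD, Finset.sum_range_succ', ← coeff_zero_eq_eval_zero]
    simp only [one_pow, mul_one]
    rw [add_sub_cancel_right, Finset.mul_sum]
    apply Finset.dvd_sum
    intro k hk
    rw [Finset.mem_range] at hk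
    exact hcoef k (by omega)
  have hv1 : N.eval 1 * u1 = f.eval 1 + P * (N.eval 1 * u1 * E.eval 1) := by
    have h2 := congrArg (eval 1) hVW
    simp only [eval_mul, eval_sub, eval_one, eval_C] at h2
    have h3 : f.eval 1 = N.eval 1 * (V.eval 1 * u1) * W.eval 1 := by rw [h1, hf, eval_mul]; ring
    have h4 : N.eval 1 * (V.eval 1 * u1) * W.eval 1 = N.eval 1 * u1 * (V.eval 1 * W.eval 1) := by ring
    rw [h3, h4, h2]; ring
  have hv0 : N.eval 0 * u0 = f.eval 0 + P * (N.eval 0 * u0 * E.eval 0) := by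
    have h2 := congrArg (eval 0) hVW
    simp only [eval_mul, eval_sub, eval_one, eval_C] at h2
    have h3 : f.eval 0 = N.eval 0 * (V.eval 0 * u0) * W.eval 0 := by rw [h0, hf, eval_mul]; ring
    have h4 : N.eval 0 * (V.eval 0 * u0) * W.eval 0 = N.eval 0 * u0 * (V.eval 0 * W.eval 0) := by ring
    rw [h3, h4, h2]; ring
  have e : (m : GaussianInt) * 2 ^ d * (N.eval 1 * u1 - N.eval 0 * u0) = (m : GaussianInt) * 2 ^ d * (f.eval 1 - f.eval 0) +
      2 ^ c * ((⟨0, 1⟩ : GaussianInt) ^ c * (m : GaussianInt) * 2 ^ d * (N.eval 1 * u1 * E.eval 1 - N.eval 0 * u0 * E.eval 0)) := by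
    have : N.eval 1 * u1 - N.eval 0 * u0 =
      f.eval 1 - f.eval 0 + P * (N.eval 1 * u1 * E.eval 1 - N.eval 0 * u0 * E.eval 0) := by
      linear_combination hv1 - hv0
    rw [this, hP2]; ring
  rw [e]
  exact dvd_add hff (dvd_mul_right _ _)

end Pool.Agent.H409R2.Pi
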